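import Pool.Agent.Results.MP_e47675_co.MinDegree

/-!
Maker's minimum degree in the unbiased Maker-Breaker degree game: on every finite graph of minimum
degree `d ≥ 128` Maker, moving first, can guarantee minimum degree at least
`d / 3 - (5/4) √(d log (4 d)) - 1`, whatever the number of vertices.
-/

set_option autoImplicit false
set_option linter.unusedSectionVars false

namespace Pool.Agent.Results.MP_e47675_co.ExplicitError

open MinDegree

lemma log_bound {n : ℝ} (hn : 128 ≤ n) : 16 * Real.log (4 * n) ≤ n := by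
  have h1 : 4 * n = 512 * (n / 128) := by ring
  have h2 : Real.log 512 = 9 * Real.log 2 := by
    rw [show (512 : ℝ) = 2 ^ 9 by norm_num, Real.log_pow]
    norm_num
  have h3 := Real.log_two_lt_d9
  have h4 : Real.log (n / 128) ≤ n / 128 - 1 :=
    Real.log_le_sub_one_of_pos (by positivity)
  rw [h1, Real.log_mul (by norm_num) (by positivity), h2]
  linarith

/-- The choice of the parameters of the potential. -/
lemma params2 (n : ℕ) (hn : 128 ≤ n) : ∃ (x y : ℝ) (K : ℕ), 1 ≤ x ∧ 0 ≤ y ∧ y ≤ 1 ∧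
    x * (1 + y) ≤ 2 ∧ 1 ≤ 1 / (4 * (n : ℝ)) * x ^ K * y ^ (n - K) ∧ K ≤ n ∧
    (n : ℝ) / 3 - 5 / 4 * √((n : ℝ) * Real.log (4 * n)) - 1 ≤ ((n - K : ℕ) : ℝ) := by
  have hnR : (128 : ℝ) ≤ n := by exact_mod_cast hn
  have hn0 : (0 : ℝ) < n := by linarith
  obtain ⟨L, hL⟩ : ∃ L : ℝ, L = Real.log (4 * n) := ⟨_, rfl⟩
  have hLn : 16 * L ≤ n := by rw [hL]; exact log_bound hnR
  have hL0 : 0 < L := by rw [hL]; exact Real.log_pos (by linarith)
  obtain ⟨s, hs⟩ : ∃ s : ℝ, s = √((n : ℝ) * L) / n := ⟨_, rfl⟩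
  have hsn : s * n = √((n : ℝ) * L) := by rw [hs]; field_simp
  have hs0 : 0 < s := by rw [hs]; positivity
  have hs2 : s ^ 2 * n = L := by
    have h1 : (s * n) ^ 2 = n * L := by rw [hsn, Real.sq_sqrt (by positivity)]
    have h2 : (s ^ 2 * n) * n = L * n := by rw [← mul_comm (n : ℝ) L, ← h1]; ring
    exact mul_right_cancel₀ hn0.ne' h2
  have hs4 : s ≤ 1 / 4 := by
    have h1 : s ^ 2 * n ≤ (1 / 4) ^ 2 * n := by rw [hs2]; linarith
    have h2 : s ^ 2 ≤ (1 / 4) ^ 2 := le_of_mul_le_mul_right h1 hn0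
    exact le_of_sq_le_sq h2 (by norm_num)
  set x : ℝ := 1 / (1 - s) with hx
  set y : ℝ := 1 - 2 * s with hy
  have h1s : 0 < 1 - s := by linarith
  have hx1 : 1 ≤ x := by
    rw [hx, le_div_iff₀ h1s]
    linarith
  have hx0 : 0 < x := by linarith
  have hy0 : 1 / 2 ≤ y := by linarith
  have hy0' : 0 < y := by linarith
  have hy1 : y ≤ 1 := by linarith
  have hxy : x * (1 + y) ≤ 2 := by
    rw [hx, hy]
    have : 1 / (1 - s) * (1 + (1 - 2 * s)) = 2 := by
      field_simp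
      ring
    exact this.le
  have hA : s ≤ Real.log x := by
    have h := Real.log_le_sub_one_of_pos h1s
    have h2 : Real.log x = - Real.log (1 - s) := by rw [hx, one_div, Real.log_inv]
    linarith
  have hB : -(2 * s + 8 * s ^ 2) ≤ Real.log y := by
    have h := Real.one_sub_inv_le_log_of_pos hy0'
    have h3 : y⁻¹ ≤ 1 + (2 * s + 8 * s ^ 2) := by
      rw [inv_le_iff_one_le_mul₀ hy0', hy]
      nlinarith
    linarith
  obtain ⟨K, hK⟩ : ∃ K : ℕ, K = ⌈2 * (n : ℝ) / 3 + 5 / 4 * (s * n)⌉₊ := ⟨_, rfl⟩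
  have hK1 : 2 * (n : ℝ) / 3 + 5 / 4 * (s * n) ≤ K := by rw [hK]; exact Nat.le_ceil _
  have hK2 : (K : ℝ) < 2 * (n : ℝ) / 3 + 5 / 4 * (s * n) + 1 := by
    rw [hK]; exact Nat.ceil_lt_add_one (by positivity)
  have hsn4 : s * n ≤ n / 4 := by nlinarith
  have hKn : K ≤ n := by
    have h1 : (K : ℝ) ≤ n := by linarith
    exact_mod_cast h1
  have hcast : ((n - K : ℕ) : ℝ) = n - K := by rw [Nat.cast_sub hKn]
  have hKnR : (K : ℝ) ≤ n := by exact_mod_cast hKn
  refine ⟨x, y, K, hx1, hy0'.le, hy1, hxy, ?_, hKn, ?_⟩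
  · have hpos : 0 < 1 / (4 * (n:ℝ)) * x ^ K * y ^ (n - K) := by positivity
    rw [← Real.log_nonneg_iff hpos, Real.log_mul (by positivity) (by positivity),
      Real.log_mul (by positivity) (by positivity), Real.log_pow, Real.log_pow, one_div,
      Real.log_inv, hcast, ← hL]
    have e1 : (K : ℝ) * s ≤ K * Real.log x := mul_le_mul_of_nonneg_left hA (Nat.cast_nonneg K)
    have e2 : ((n : ℝ) - K) * (-(2 * s + 8 * s ^ 2)) ≤ (n - K) * Real.log y :=
      mul_le_mul_of_nonneg_left hB (by linarith)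
    have e3 : 0 ≤ 3 * s + 8 * s ^ 2 := by positivity
    have e4 : (2 * (n : ℝ) / 3 + 5 / 4 * (s * n)) * (3 * s + 8 * s ^ 2) ≤
        K * (3 * s + 8 * s ^ 2) := mul_le_mul_of_nonneg_right hK1 e3
    have e5 : (2 * (n : ℝ) / 3 + 5 / 4 * (s * n)) * (3 * s + 8 * s ^ 2) =
        n * (2 * s + 8 * s ^ 2) + (13 / 12) * (s ^ 2 * n) + 10 * (s * (s ^ 2 * n)) := by ring
    rw [hs2] at e5
    have e6 : 0 ≤ 10 * (s * L) := by positivity
    nlinarith
  · rw [hcast, ← hL, ← hsn]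
    linarith

/-- **Theorem.** On every finite graph with all degrees at least `d ≥ 128` (and any number of
vertices) Maker, moving first, can guarantee minimum degree at least
`d / 3 - (5/4) √(d log (4 d)) - 1`. In particular the answer to the question is yes. -/
theorem result :
    (∀ d : ℕ, 128 ≤ d → ∀ (V : Type) [Fintype V] [DecidableEq V] (G : SimpleGraph V)
      [DecidableRel G.Adj], (∀ v, d ≤ G.degree v) →
        Guarantees G ((d : ℝ) / 3 - 5 / 4 * √((d : ℝ) * Real.log (4 * d)) - 1) true ∅ ∅) ∧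
    (∃ (ε : ℝ) (d₀ : ℕ), 0 < ε ∧ ∀ d : ℕ, d₀ ≤ d →
      ∀ (V : Type) [Fintype V] [DecidableEq V] [Nonempty V] (G : SimpleGraph V)
        [DecidableRel G.Adj],
        G.minDegree = d → Guarantees G ((1 / 4 + ε) * d) true ∅ ∅) := by
  refine ⟨fun d hd V _ _ G _ hG => ?_, MinDegree.result.2⟩
  obtain ⟨x, y, K, hx, hy, hy1, hxy, hK, -, hk⟩ := params2 d hd
  exact bound (by omega) hx hy hy1 hxy hK hk hG

end Pool.Agent.Results.MP_e47675_co.ExplicitError
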